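import Pool.Agent.ABD31.Aff

set_option autoImplicit false

open Filter Topology Set
open Pool.Agent.ABD31

namespace Pool.Agent.Results.MP_d23a62_nt.NotAutomatic

/-- The `b`-kernel of a set `B` of natural numbers: all its sections
`{n | b ^ e * n + r ∈ B}` with `r < b ^ e`. By Eilenberg, `B` is `b`-automatic exactly when the
`b`-kernel is finite. -/
def kernel (b : ℕ) (B : Set ℕ) : Set (Set ℕ) :=
  {S | ∃ e r : ℕ, r < b ^ e ∧ S = {n : ℕ | b ^ e * n + r ∈ B}}

/-- For every `u > 1` (`u = 2` is the case of the abundant numbers) and every base `b ≥ 2`, the set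
of all `n` with `σ(n) > u n` differs from every `b`-automatic set on a set of positive lower
density. -/
theorem result (u : ℝ) (hu : 1 < u) (b : ℕ) (hb : 2 ≤ b) (B : Set ℕ) (hB : (kernel b B).Finite) :
    ∃ c : ℝ, 0 < c ∧ ∀ᶠ N : ℕ in atTop,
      c * N ≤ (cnt (symmDiff {n : ℕ | u * (n : ℝ) < ((∑ d ∈ n.divisors, d : ℕ) : ℝ)} B) N : ℝ) := by
  have hA : {n : ℕ | u * (n : ℝ) < ((∑ d ∈ n.divisors, d : ℕ) : ℝ)} = {n : ℕ | u < idx n} := by
    ext n
    simp only [Set.mem_ofPred_eq]
    rw [sigma_eq]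
    rcases Nat.eq_zero_or_pos n with h | h
    · subst h
      simp [idx]
      linarith
    · have hn' : (0 : ℝ) < n := by exact_mod_cast h
      rw [mul_comm]
      exact mul_lt_mul_iff_right₀ hn'
  rw [hA]
  have hmemk : ∀ e : ℕ, {n : ℕ | b ^ (e + 1) * n + 1 ∈ B} ∈ kernel b B := by
    intro e
    refine ⟨e + 1, 1, ?_, rfl⟩
    exact Nat.one_lt_pow (Nat.succ_ne_zero e) (by omega)
  have hfin : Finite (kernel b B) := hB
  obtain ⟨e, e', hne, heq⟩ := Finite.exists_ne_map_eq_of_infinite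
    (fun e : ℕ => (⟨{n : ℕ | b ^ (e + 1) * n + 1 ∈ B}, hmemk e⟩ : kernel b B))
  have heq' : {n : ℕ | b ^ (e + 1) * n + 1 ∈ B} = {n : ℕ | b ^ (e' + 1) * n + 1 ∈ B} :=
    congrArg Subtype.val heq
  set α := b ^ (e + 1) with hα
  set γ := b ^ (e' + 1) with hγ
  have hα0 : 0 < α := pow_pos (by omega) _
  have hγ0 : 0 < γ := pow_pos (by omega) _
  have hαγ : α * 1 ≠ 1 * γ := by
    rw [mul_one, one_mul, hα, hγ]
    intro h
    have := Nat.pow_right_injective hb h
    exact hne (by omega)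
  obtain ⟨c, hc, hG⟩ := affine_sep hu hα0 (Nat.coprime_one_left γ) hαγ
  set Dset : Set ℕ := symmDiff {n : ℕ | u < idx n} B with hDset
  set K := α + γ with hK
  have hK0 : 0 < K := by omega
  have hcnt : ∀ N : ℕ, cnt {n | u < idx (α * n + 1) ∧ idx (γ * n + 1) ≤ u} N ≤
      2 * cnt Dset (K * N) := by
    intro N
    have h1 : {n | u < idx (α * n + 1) ∧ idx (γ * n + 1) ≤ u} ⊆
        {n | α * n + 1 ∈ Dset} ∪ {n | γ * n + 1 ∈ Dset} := by
      rintro n ⟨h1, h2⟩
      by_cases hn : α * n + 1 ∈ B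
      · right
        have hn2 : n ∈ {n : ℕ | γ * n + 1 ∈ B} := by rw [← heq']; exact hn
        exact Or.inr ⟨hn2, fun h => absurd h (not_lt.mpr h2)⟩
      · left
        exact Or.inl ⟨h1, hn⟩
    have h2 : ∀ α : ℕ, 0 < α → α ≤ K → cnt {n | α * n + 1 ∈ Dset} N ≤ cnt Dset (K * N) := by
      intro α hα hαK
      refine cnt_le_cnt_of_inj (f := fun n => α * n + 1) ?_ ?_
      · intro m m' h
        simp only at h
        have h3 : α * m = α * m' := by omega
        exact Nat.eq_of_mul_eq_mul_left hα h3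
      · intro m hm hmD
        refine ⟨?_, hmD⟩
        have h3 : α * (m + 1) ≤ K * N := Nat.mul_le_mul hαK hm
        have h4 : α * (m + 1) = α * m + α := by ring
        rcases Nat.lt_or_ge (α * m + 1) (K * N) with h5 | h5
        · exact h5
        · exfalso
          have h6 : K * (m + 1) ≤ K * N := Nat.mul_le_mul_left _ hm
          have h7 : K * (m + 1) = K * m + K := by ring
          have h8 : α * m ≤ K * m := Nat.mul_le_mul_right _ hαK
          omega
    have h3 := (cnt_mono h1 N).trans (cnt_union_le _ _ _)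
    have h4 := h2 α hα0 (by omega)
    have h5 := h2 γ hγ0 (by omega)
    omega
  refine ⟨c / (4 * K), by positivity, ?_⟩
  have hX : Tendsto (fun N : ℕ => N / K) atTop atTop := Nat.tendsto_div_const_atTop (by omega)
  filter_upwards [hX.eventually hG, eventually_ge_atTop K] with N h1 h2
  have hKr : (0 : ℝ) < (K : ℝ) := by exact_mod_cast hK0
  have h3 : (cnt {n | u < idx (α * n + 1) ∧ idx (γ * n + 1) ≤ u} (N / K) : ℝ) ≤
      2 * (cnt Dset (K * (N / K)) : ℝ) := by exact_mod_cast hcnt (N / K)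
  have h4 : (cnt Dset (K * (N / K)) : ℝ) ≤ (cnt Dset N : ℝ) := by
    have h5 : cnt Dset (K * (N / K)) ≤ cnt Dset N := by
      classical
      unfold cnt
      apply Finset.card_le_card
      intro n hn
      rw [Finset.mem_filter, Finset.mem_range] at hn ⊢
      exact ⟨lt_of_lt_of_le hn.1 (Nat.mul_div_le N K), hn.2⟩
    exact_mod_cast h5
  have h6 : (N : ℝ) / (2 * K) ≤ ((N / K : ℕ) : ℝ) := by
    rw [div_le_iff₀ (by positivity)]
    have h7 : N ≤ N / K * (2 * K) := by
      have a1 := Nat.mod_lt N hK0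
      have a2 := Nat.div_add_mod' N K
      have a3 : 0 < N / K := Nat.div_pos h2 hK0
      have a4 : 1 * K ≤ N / K * K := Nat.mul_le_mul_right _ a3
      have a5 : N / K * (2 * K) = 2 * (N / K * K) := by ring
      omega
    exact_mod_cast h7
  have h8 : c / (4 * K) * N = c * ((N : ℝ) / (2 * K)) / 2 := by
    field_simp
    ring
  rw [h8]
  have h9 : c * ((N : ℝ) / (2 * K)) ≤ c * ((N / K : ℕ) : ℝ) := by gcongr
  linarith

end Pool.Agent.Results.MP_d23a62_nt.NotAutomatic
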