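import Pool.Agent.ABD31.Coin
import Pool.Agent.ABD31.Strict

set_option autoImplicit false

open MeasureTheory Filter Topology Set
open Pool.Agent.ABD31

namespace Pool.Agent.Results.MP_d23a62_nt.RandomDeletion

/-- Let `u` be real (`u = 2` is the case of abundant numbers), let `p i` be distinct primes and
`a i` positive exponents with `∑ 1 / p i ^ a i` finite. For `x : ℕ → Bool` remove from the numbers
`n` with `σ(n) > u n` all multiples of the prime powers `p i ^ a i` with `x i = true`. The natural
density `δ x` of what remains exists for every `x`, is continuous and strictly decreasing in `x`,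
and for independent fair coins `x i` it almost surely avoids any given countable set of reals; the
same holds for all `x` in a comeager set. In particular `δ x` is transcendental almost surely and
generically. -/
theorem result (u : ℝ) (p a : ℕ → ℕ) (hp : ∀ i, (p i).Prime) (hinj : Function.Injective p)
    (ha : ∀ i, 1 ≤ a i) (hsum : Summable (fun i => (1 : ℝ) / (p i : ℝ) ^ a i)) :
    ∃ δ : (ℕ → Bool) → ℝ,
      (∀ x : ℕ → Bool, HasDensity
        {n : ℕ | u * (n : ℝ) < ((∑ d ∈ n.divisors, d : ℕ) : ℝ) ∧
          ∀ i, x i = true → ¬ p i ^ a i ∣ n} (δ x)) ∧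
      Continuous δ ∧ StrictAnti δ ∧
      (∀ C : Set ℝ, C.Countable →
        (∀ᵐ x ∂coin, δ x ∉ C) ∧ (∀ᶠ x in residual (ℕ → Bool), δ x ∉ C)) ∧
      (∀ᵐ x ∂coin, Transcendental ℚ (δ x)) ∧
      (∀ᶠ x in residual (ℕ → Bool), Transcendental ℚ (δ x)) := by
  have hsum' : Summable (fun i => (1 : ℝ) / ((p i ^ a i : ℕ) : ℝ)) := by
    simpa using hsum
  have hs : ∀ i, 0 < p i ^ a i := fun i => pow_pos (hp i).pos _
  have hset : ∀ x : ℕ → Bool, {n : ℕ | u * (n : ℝ) < ((∑ d ∈ n.divisors, d : ℕ) : ℝ) ∧
      ∀ i, x i = true → ¬ p i ^ a i ∣ n} = thin u (fun i => p i ^ a i) x := by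
    intro x
    ext n
    unfold thin
    simp only [Set.mem_ofPred_eq]
    rw [sigma_eq]
    constructor
    · rintro ⟨h1, h2⟩
      have hn : 0 < n := by
        rcases Nat.eq_zero_or_pos n with h | h
        · subst h; simp at h1
        · exact h
      refine ⟨hn, ?_, h2⟩
      have hn' : (0 : ℝ) < n := by exact_mod_cast hn
      rw [mul_comm] at h1
      exact lt_of_mul_lt_mul_left h1 hn'.le
    · rintro ⟨hn, h1, h2⟩
      have hn' : (0 : ℝ) < n := by exact_mod_cast hn
      refine ⟨?_, h2⟩
      rw [mul_comm]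
      exact mul_lt_mul_of_pos_left h1 hn'
  choose δ hδ using fun x : ℕ → Bool => thin_density (s := fun i => p i ^ a i) hs hsum' u x
  have hcont : Continuous δ := thin_continuous hs hsum' u hδ
  have hanti : StrictAnti δ := fun x y hxy => thin_strict hp ha hinj hsum' u hxy (hδ x) (hδ y)
  have hcount := fun (C : Set ℝ) (hC : C.Countable) => coin_lemma hcont hanti C hC
  have halg := hcount {z : ℝ | IsAlgebraic ℚ z} (Algebraic.countable ℚ ℝ)
  refine ⟨δ, ?_, hcont, hanti, hcount, ?_, ?_⟩
  · intro x
    rw [hset x]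
    exact hδ x
  · filter_upwards [halg.1] with x hx
    exact hx
  · filter_upwards [halg.2] with x hx
    exact hx

end Pool.Agent.Results.MP_d23a62_nt.RandomDeletion
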